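import Mathlib

namespace Pool.Agent.Work.MP_664517_co

/-- `S` is a total dominating set of `G`: every vertex has a neighbour in `S`. -/
def IsTotalDom {V : Type} (G : SimpleGraph V) (S : Finset V) : Prop :=
  ∀ v : V, ∃ u ∈ S, G.Adj v u

/-- The total domination number: the least size of a total dominating set. -/
noncomputable def gammaT {V : Type} (G : SimpleGraph V) : ℕ :=
  sInf {k : ℕ | ∃ S : Finset V, IsTotalDom G S ∧ S.card = k}

/-- `G` is 3-total-domination edge-critical: no isolated vertices, total domination number 3,
and adding any missing edge makes the total domination number smaller than 3. -/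
def ThreeTEC {V : Type} (G : SimpleGraph V) : Prop :=
  (∀ v : V, ∃ u : V, G.Adj v u) ∧ gammaT G = 3 ∧
    ∀ u v : V, u ≠ v → ¬ G.Adj u v → gammaT (G ⊔ SimpleGraph.edge u v) < 3

end Pool.Agent.Work.MP_664517_co
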