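import Mathlib
import Pool.Agent.Work.MP_664517_co.Defs

namespace Pool.Agent.Work.MP_664517_co

open Finset

/-- critical triple -/
def Crit {V : Type} (G : SimpleGraph V) (a x y : V) : Prop :=
  (∀ w, w ≠ x → w ≠ a → G.Adj w a ∨ G.Adj w y) ∧ ¬ G.Adj x y

lemma not_two {V : Type} [Fintype V] {G : SimpleGraph V} (h : ThreeTEC G) (s t : V) :
    ∃ w, ¬ G.Adj w s ∧ ¬ G.Adj w t := by
  classical
  by_contra hc
  push Not at hc
  have hT : IsTotalDom G {s, t} := by
    intro v
    by_cases h1 : G.Adj v s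
    · exact ⟨s, by simp, h1⟩
    · exact ⟨t, by simp, hc v h1⟩
  have h1 : gammaT G ≤ ({s, t} : Finset V).card := Nat.sInf_le ⟨{s, t}, hT, rfl⟩
  have h2 : ({s, t} : Finset V).card ≤ 2 := card_le_two
  have := h.2.1
  omega

lemma exists_crit {V : Type} [Fintype V] {G : SimpleGraph V} (h : ThreeTEC G) (a x : V)
    (hne : a ≠ x) (hn : ¬ G.Adj a x) : ∃ y, Crit G a x y ∨ Crit G x a y := by
  classical
  have h3 := h.2.2 a x hne hn
  have hne' : {k : ℕ | ∃ S : Finset V, IsTotalDom (G ⊔ SimpleGraph.edge a x) S ∧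
      S.card = k}.Nonempty := by
    refine ⟨_, univ, ?_, rfl⟩
    intro v
    obtain ⟨u, hu⟩ := h.1 v
    exact ⟨u, mem_univ _, Or.inl hu⟩
  obtain ⟨S, hS, hcard⟩ := Nat.sInf_mem hne'
  have hS2 : S.card ≤ 2 := by
    unfold gammaT at h3
    omega
  obtain ⟨s, hs, -⟩ := hS a
  have hst : ∃ t, ∀ w ∈ S, w = s ∨ w = t := by
    by_cases h1 : ∃ t ∈ S, t ≠ s
    · obtain ⟨t, ht, hts⟩ := h1
      refine ⟨t, fun w hw => ?_⟩
      by_contra hc
      push Not at hc
      have : ({s, t, w} : Finset V) ⊆ S := by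
        intro z hz
        simp only [mem_insert, mem_singleton] at hz
        rcases hz with rfl | rfl | rfl <;> assumption
      have h4 := card_le_card this
      rw [card_eq_three.2 ⟨s, t, w, hts.symm, hc.1.symm, hc.2.symm, rfl⟩] at h4
      omega
    · push Not at h1
      exact ⟨s, fun w hw => Or.inl (h1 w hw)⟩
  obtain ⟨t, ht⟩ := hst
  have key : ∀ s t : V, (∀ w ∈ S, w = s ∨ w = t) → ∀ w0, ¬ G.Adj w0 s → ¬ G.Adj w0 t →
      (SimpleGraph.edge a x).Adj w0 s → ∃ y, Crit G a x y ∨ Crit G x a y := by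
    intro s t ht w0 h1 h2 h3
    rw [SimpleGraph.edge_adj] at h3
    have hdom : ∀ w, w ≠ x → w ≠ a → G.Adj w s ∨ G.Adj w t := by
      intro w hwx hwa
      obtain ⟨u, hu, hadj⟩ := hS w
      rcases hadj with hadj | hadj
      · rcases ht u hu with rfl | rfl
        · exact Or.inl hadj
        · exact Or.inr hadj
      · rw [SimpleGraph.edge_adj] at hadj
        rcases hadj.1 with ⟨h5, -⟩ | ⟨h5, -⟩
        · exact absurd h5 hwa
        · exact absurd h5 hwx
    rcases h3.1 with ⟨rfl, rfl⟩ | ⟨rfl, rfl⟩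
    · exact ⟨t, Or.inr ⟨fun w h5 h6 => hdom w h6 h5, h2⟩⟩
    · exact ⟨t, Or.inl ⟨fun w h5 h6 => hdom w h5 h6, h2⟩⟩
  obtain ⟨w0, h1, h2⟩ := not_two h s t
  obtain ⟨u, hu, hadj⟩ := hS w0
  rcases ht u hu with rfl | rfl
  · rcases hadj with hadj | hadj
    · exact absurd hadj h1
    · exact key _ t ht w0 h1 h2 hadj
  · rcases hadj with hadj | hadj
    · exact absurd hadj h2
    · exact key _ s (fun w hw => (ht w hw).symm) w0 h2 h1 hadj

/-- One step of the density argument. -/
lemma step {V : Type} [Fintype V] [DecidableEq V] (G : SimpleGraph V) [DecidableRel G.Adj]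
    (hG : ∀ a x : V, a ≠ x → ¬ G.Adj a x → ∃ y, Crit G a x y ∨ Crit G x a y)
    (A B : Finset V) (hBA : B ⊆ A) (Δ : ℕ)
    (hΔ : ∀ a ∈ A, (A.filter (fun w => G.Adj w a)).card ≤ Δ) (hA : 2 * Δ + 2 < A.card)
    (hB : 8 * Fintype.card V * (Δ + 1) ≤ B.card ^ 2) (hn : 0 < Fintype.card V) :
    ∃ x ∈ B, ∃ y, y ∉ A ∧ ¬ G.Adj x y ∧ ∃ B' ⊆ B, (∀ a ∈ B', Crit G a x y) ∧
      B.card ^ 2 ≤ 4 * Fintype.card V * B'.card := by
  classical
  set n := Fintype.card V with hndef
  -- a choice of a non-neighbour in `A`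
  have hpi : ∀ y : V, ∃ z : V, (∃ w ∈ A, ¬ G.Adj w y) → z ∈ A ∧ ¬ G.Adj z y := by
    intro y
    by_cases h : ∃ w ∈ A, ¬ G.Adj w y
    · obtain ⟨w, hw, hwy⟩ := h
      exact ⟨w, fun _ => ⟨hw, hwy⟩⟩
    · exact ⟨y, fun h' => absurd h' h⟩
  choose pi hpi using hpi
  have hnotA : ∀ a ∈ A, ∀ x y, Crit G a x y → y ∉ A := by
    intro a ha x y hc hy
    have hsub : A ⊆ ({x, a} ∪ A.filter (fun w => G.Adj w a)) ∪ A.filter (fun w => G.Adj w y) := by
      intro w hw
      by_cases h1 : w = x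
      · simp [h1]
      by_cases h2 : w = a
      · simp [h2]
      rcases hc.1 w h1 h2 with h | h
      · simp [hw, h]
      · simp [hw, h]
    have h1 := card_le_card hsub
    have h2 := card_union_le ({x, a} ∪ A.filter (fun w => G.Adj w a))
      (A.filter (fun w => G.Adj w y))
    have h3 := card_union_le ({x, a} : Finset V) (A.filter (fun w => G.Adj w a))
    have h4 : ({x, a} : Finset V).card ≤ 2 := card_le_two
    have h5 := hΔ a ha
    have h6 := hΔ y hy
    omega
  let Gd : V → Finset V := fun y => B.filter (fun a => pi y ∈ B ∧ Crit G a (pi y) y)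
  obtain ⟨y0, -, hy0⟩ := exists_max_image (univ : Finset V) (fun y => (Gd y).card)
    (univ_nonempty_iff.2 (Fintype.card_pos_iff.1 hn))
  set m := (Gd y0).card with hm
  let T : V → Finset (V × V) := fun y =>
    (B ×ˢ B).filter (fun q => q.1 ≠ q.2 ∧ ¬ G.Adj q.1 q.2 ∧ Crit G q.1 q.2 y)
  have hT : ∀ y, (T y).card ≤ m + (Δ + 1) := by
    intro y
    by_cases hemp : (T y).Nonempty
    swap
    · rw [not_nonempty_iff_eq_empty.1 hemp]; simp
    obtain ⟨q0, hq0⟩ := hemp
    simp only [T, mem_filter, mem_product] at hq0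
    have hpy := hpi y ⟨q0.2, hBA hq0.1.2, hq0.2.2.2.2⟩
    have h1 : (T y).card ≤ (Gd y ∪ insert (pi y) (A.filter (fun w => G.Adj w (pi y)))).card := by
      apply card_le_card_of_injOn Prod.fst
      · intro q hq
        simp only [T, coe_filter, mem_product, Set.mem_ofPred_eq] at hq
        simp only [Gd, coe_union, coe_filter, coe_insert, Set.mem_union, Set.mem_ofPred_eq,
          Set.mem_insert_iff]
        by_cases h1 : pi y = q.2
        · left
          rw [h1]
          exact ⟨hq.1.1, hq.1.2, hq.2.2.2⟩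
        right
        by_cases h2 : pi y = q.1
        · exact Or.inl h2.symm
        right
        rcases hq.2.2.2.1 (pi y) h1 h2 with h | h
        · exact ⟨hBA hq.1.1, h.symm⟩
        · exact absurd h hpy.2
      · intro q hq q' hq' hqq
        simp only [T, coe_filter, mem_product, Set.mem_ofPred_eq] at hq hq'
        have h2 : q.2 = q'.2 := by
          by_contra hc
          have h3 : q.2 ≠ q'.1 := by
            rw [← hqq]; exact hq.2.1.symm
          rcases hq'.2.2.2.1 q.2 hc h3 with h | h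
          · rw [← hqq] at h
            exact hq.2.2.1 h.symm
          · exact hq.2.2.2.2 h
        exact Prod.ext hqq h2
    have h2 := card_union_le (Gd y) (insert (pi y) (A.filter (fun w => G.Adj w (pi y))))
    have h3 := card_insert_le (pi y) (A.filter (fun w => G.Adj w (pi y)))
    have h4 := hΔ (pi y) hpy.1
    have h5 : (Gd y).card ≤ m := hy0 y (mem_univ _)
    omega
  let S1 : Finset (V × V) := B.biUnion (fun a => (insert a (A.filter (fun w => G.Adj w a))).image
    (fun w => (a, w)))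
  have hS1 : S1.card ≤ n * (Δ + 1) := by
    calc S1.card ≤ ∑ a ∈ B, ((insert a (A.filter (fun w => G.Adj w a))).image
          (fun w => (a, w))).card := card_biUnion_le
      _ ≤ ∑ _a ∈ B, (Δ + 1) := by
          apply sum_le_sum
          intro a ha
          have h1 := card_image_le (s := insert a (A.filter (fun w => G.Adj w a)))
            (f := fun w => (a, w))
          have h2 := card_insert_le a (A.filter (fun w => G.Adj w a))
          have h3 := hΔ a (hBA ha)
          omega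
      _ = B.card * (Δ + 1) := by simp
      _ ≤ n * (Δ + 1) := Nat.mul_le_mul_right _ (card_le_univ B)
  let S2 : Finset (V × V) := univ.biUnion T
  have hS2 : S2.card ≤ n * (m + (Δ + 1)) := by
    calc S2.card ≤ ∑ y : V, (T y).card := card_biUnion_le
      _ ≤ ∑ _y : V, (m + (Δ + 1)) := sum_le_sum (fun y _ => hT y)
      _ = n * (m + (Δ + 1)) := by simp [hndef]
  have hcover : B ×ˢ B ⊆ (S1 ∪ S2) ∪ S2.image Prod.swap := by
    rintro ⟨a, x⟩ hq
    rw [mem_product] at hq
    simp only [mem_union]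
    by_cases h1 : a = x
    · left; left
      simp only [S1, mem_biUnion, mem_image]
      exact ⟨a, hq.1, a, by simp, by rw [h1]⟩
    by_cases h2 : G.Adj a x
    · left; left
      simp only [S1, mem_biUnion, mem_image]
      exact ⟨a, hq.1, x, by simp [hBA hq.2, h2.symm], rfl⟩
    obtain ⟨y, hy | hy⟩ := hG a x h1 h2
    · left; right
      simp only [S2, mem_biUnion, T, mem_filter, mem_product]
      exact ⟨y, mem_univ _, hq, h1, h2, hy⟩
    · right
      simp only [S2, mem_image, mem_biUnion, T, mem_filter, mem_product]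
      exact ⟨(x, a), ⟨y, mem_univ _, ⟨hq.2, hq.1⟩, Ne.symm h1, fun h => h2 h.symm, hy⟩, rfl⟩
  have hc1 := card_le_card hcover
  rw [card_product] at hc1
  have hc2 := card_union_le (S1 ∪ S2) (S2.image Prod.swap)
  have hc3 := card_union_le S1 S2
  have hc4 := card_image_le (s := S2) (f := Prod.swap)
  have hmain : B.card ^ 2 ≤ 4 * n * m := by nlinarith
  have hmpos : 0 < m := by
    rcases Nat.eq_zero_or_pos m with h | h
    · rw [h] at hmain
      have : 0 < 8 * n * (Δ + 1) := by positivity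
      omega
    · exact h
  obtain ⟨a0, ha0⟩ := card_pos.1 hmpos
  simp only [Gd, mem_filter] at ha0
  refine ⟨pi y0, ha0.2.1, y0, hnotA a0 (hBA ha0.1) _ _ ha0.2.2, ha0.2.2.2, Gd y0,
    filter_subset _ _, ?_, hmain⟩
  intro a ha
  simp only [Gd, mem_filter] at ha
  exact ha.2.2

/-- the growth function -/
def gr : ℕ → ℕ → ℕ
  | 0, D => D
  | j + 1, D => gr j (4 * D ^ 2)

lemma le_gr (j : ℕ) : ∀ D : ℕ, D ≤ gr j D := by
  induction j with
  | zero => intro D; exact le_rfl
  | succ j ih =>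
    intro D
    calc D ≤ 4 * D ^ 2 := by nlinarith [Nat.zero_le D]
      _ ≤ gr j (4 * D ^ 2) := ih _

lemma gr_mono (j : ℕ) : ∀ D E : ℕ, D ≤ E → gr j D ≤ gr j E := by
  induction j with
  | zero => intro D E h; exact h
  | succ j ih =>
    intro D E h
    apply ih
    have := Nat.pow_le_pow_left h 2
    omega

lemma iter {V : Type} [Fintype V] [DecidableEq V] (G : SimpleGraph V) [DecidableRel G.Adj]
    (hG : ∀ a x : V, a ≠ x → ¬ G.Adj a x → ∃ y, Crit G a x y ∨ Crit G x a y)
    (A : Finset V) (Δ : ℕ)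
    (hΔ : ∀ a ∈ A, (A.filter (fun w => G.Adj w a)).card ≤ Δ) (hA : 2 * Δ + 2 < A.card)
    (hn : 0 < Fintype.card V) (j : ℕ) :
    ∀ (i D : ℕ) (B K : Finset V), B ⊆ A → Fintype.card V ≤ D * B.card → G.IsNClique i K →
      (∀ k ∈ K, ∀ a ∈ B, ∀ y, y ∉ A → ¬ G.Adj y a → G.Adj y k) →
      8 * (Δ + 1) * (gr j D) ^ 2 ≤ Fintype.card V → ∃ K', G.IsNClique (i + j) K' := by
  induction j with
  | zero => intro i D B K _ _ hK _ _; exact ⟨K, hK⟩
  | succ j ih =>
    intro i D B K hBA hD hK hinv hbig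
    set n := Fintype.card V with hndef
    have hDpos : 0 < D := by
      rcases Nat.eq_zero_or_pos D with h | h
      · rw [h] at hD; omega
      · exact h
    have h1 : 8 * (Δ + 1) * D ^ 2 ≤ n := by
      have h2 := Nat.pow_le_pow_left (le_gr (j + 1) D) 2
      exact le_trans (Nat.mul_le_mul_left _ h2) hbig
    have hsq : n ^ 2 ≤ D ^ 2 * B.card ^ 2 := by
      have := Nat.pow_le_pow_left hD 2
      rwa [mul_pow] at this
    have hB : 8 * n * (Δ + 1) ≤ B.card ^ 2 := by
      apply Nat.le_of_mul_le_mul_left (c := D ^ 2) _ (by positivity)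
      nlinarith
    obtain ⟨x, hx, y, hyA, hxy, B', hB'B, hB', hcard⟩ := step G hG A B hBA Δ hΔ hA hB hn
    have hyK : ∀ k ∈ K, G.Adj y k := fun k hk => hinv k hk x hx y hyA (fun h => hxy h.symm)
    have hK' : G.IsNClique (i + 1) (insert y K) := hK.insert hyK
    have h3 : n ≤ 4 * D ^ 2 * B'.card := by
      apply Nat.le_of_mul_le_mul_left (c := n) _ hn
      nlinarith
    obtain ⟨K', hK'⟩ := ih (i + 1) (4 * D ^ 2) B' (insert y K) (hB'B.trans hBA) h3 hK' (by
      intro k hk a ha y' hy' hy'a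
      rcases mem_insert.1 hk with rfl | hk
      · have h4 : y' ≠ x := fun h => hy' (h ▸ hBA hx)
        have h5 : y' ≠ a := fun h => hy' (h ▸ hBA (hB'B ha))
        rcases (hB' a ha).1 y' h4 h5 with h | h
        · exact absurd h hy'a
        · exact h
      · exact hinv k hk a (hB'B ha) y' hy' hy'a) hbig
    exact ⟨K', by rwa [show i + (j + 1) = i + 1 + j by ring]⟩

lemma sparse (φ : ℕ → ℕ) (p : ℕ) : ∀ D0 : ℕ, ∃ Dm : ℕ, ∀ (V : Type) [Fintype V] [DecidableEq V]
    (G : SimpleGraph V) [DecidableRel G.Adj] (A0 : Finset V),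
    Fintype.card V ≤ D0 * A0.card → (∀ K ⊆ A0, ¬ G.IsNClique p K) →
    ∃ D ≤ Dm, ∃ A : Finset V, Fintype.card V ≤ D * A.card ∧
      ∀ a ∈ A, φ D * (A.filter (fun w => G.Adj w a)).card ≤ A.card := by
  induction p with
  | zero =>
    intro D0
    refine ⟨0, fun V _ _ G _ A0 _ h => ?_⟩
    exact absurd (by simp) (h ∅ (empty_subset _))
  | succ p ih =>
    intro D0
    obtain ⟨Dm, hDm⟩ := ih (D0 * φ D0)
    refine ⟨max D0 Dm, fun V _ _ G _ A0 h0 hK => ?_⟩
    by_cases h : ∀ a ∈ A0, φ D0 * (A0.filter (fun w => G.Adj w a)).card ≤ A0.card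
    · exact ⟨D0, le_max_left _ _, A0, h0, h⟩
    push Not at h
    obtain ⟨a, ha, hlt⟩ := h
    obtain ⟨D, hD, A, hA⟩ := hDm V G (A0.filter (fun w => G.Adj w a)) (by
      calc Fintype.card V ≤ D0 * A0.card := h0
        _ ≤ D0 * (φ D0 * (A0.filter (fun w => G.Adj w a)).card) :=
            Nat.mul_le_mul_left _ hlt.le
        _ = _ := by ring) (by
      intro K hKs hKc
      apply hK (insert a K)
      · intro w hw
        rcases mem_insert.1 hw with rfl | hw
        · exact ha
        · exact (mem_filter.1 (hKs hw)).1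
      · exact hKc.insert (fun k hk => (mem_filter.1 (hKs hk)).2.symm))
    exact ⟨D, le_trans hD (le_max_right _ _), A, hA⟩

theorem bounded (p : ℕ) : ∃ N : ℕ, ∀ (V : Type) [Fintype V] (G : SimpleGraph V),
    ThreeTEC G → G.CliqueFree p → Fintype.card V ≤ N := by
  classical
  obtain ⟨Dm, hDm⟩ := sparse (fun D => 16 * (gr p D) ^ 2) p 1
  refine ⟨16 * (gr p Dm) ^ 2, fun V _ G hG hK => ?_⟩
  by_contra hN
  push Not at hN
  have hn : 0 < Fintype.card V := by omega
  obtain ⟨D, hD, A, hA, hsp⟩ := hDm V G univ (by simp) (fun K _ => hK K)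
  set n := Fintype.card V with hndef
  set g := gr p D with hg
  have hg1 : g ≤ gr p Dm := gr_mono p D Dm hD
  have hg2 : 16 * g ^ 2 < n := by
    have := Nat.pow_le_pow_left hg1 2
    omega
  have hDg : D ≤ g := le_gr p D
  have hDpos : 0 < D := by
    rcases Nat.eq_zero_or_pos D with h | h
    · rw [h] at hA; omega
    · exact h
  have hAne : A.Nonempty := by
    rw [← card_pos]
    rcases Nat.eq_zero_or_pos A.card with h | h
    · rw [h] at hA; omega
    · exact h
  obtain ⟨a0, ha0, hmax⟩ := exists_max_image A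
    (fun a => (A.filter (fun w => G.Adj w a)).card) hAne
  set Δ := (A.filter (fun w => G.Adj w a0)).card with hΔ
  have h1 : 16 * g ^ 2 * Δ ≤ A.card := hsp a0 ha0
  have h2 : A.card ≤ n := card_le_univ A
  have hbig : 8 * (Δ + 1) * g ^ 2 ≤ n := by nlinarith
  have h3 : 8 * (Δ + 1) ≤ A.card := by
    apply Nat.le_of_mul_le_mul_left (c := g ^ 2) _ (by have : 0 < g := by omega
                                                       positivity)
    have h4 : D ≤ g ^ 2 := by nlinarith
    calc g ^ 2 * (8 * (Δ + 1)) = 8 * (Δ + 1) * g ^ 2 := by ring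
      _ ≤ n := hbig
      _ ≤ D * A.card := hA
      _ ≤ g ^ 2 * A.card := Nat.mul_le_mul_right _ h4
  obtain ⟨K, hKc⟩ := iter G (exists_crit hG) A Δ hmax (by omega) hn p 0 D A ∅ subset_rfl hA
    (by simp) (by simp) hbig
  rw [zero_add] at hKc
  exact hK K hKc

theorem finite_main (p : ℕ) :
    {G : Σ n : ℕ, SimpleGraph (Fin n) | ThreeTEC G.2 ∧ G.2.CliqueFree p}.Finite := by
  obtain ⟨N, hN⟩ := bounded p
  have h : (⋃ n ∈ Set.Iic N, Set.range
      (fun G : SimpleGraph (Fin n) => (⟨n, G⟩ : Σ n : ℕ, SimpleGraph (Fin n)))).Finite :=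
    (Set.finite_Iic N).biUnion (fun n _ => Set.finite_range _)
  apply h.subset
  rintro ⟨n, G⟩ ⟨h1, h2⟩
  have := hN (Fin n) G h1 h2
  simp only [Fintype.card_fin] at this
  simp only [Set.mem_iUnion, Set.mem_range]
  exact ⟨n, this, G, rfl⟩

end Pool.Agent.Work.MP_664517_co
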